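import Pool.Agent.Helper64.DT.Stmts

/-! MP_866009_co: adding one chord to an oriented model. -/

set_option autoImplicit false

namespace Pool.Agent.Helper64.DT

open Pool.Agent.Helper64.CT
open Pool.Agent.Helper64.HG (Ovl Model Circ IC HellyCircle ChordModel)

theorem stb_rev_T {V : Type} (G : SimpleGraph V) (b : V → V → Bool) {z y x : V} (hy : y ≠ z)
    (hx : x ≠ z) : rev G b z y x = b y x := by
  unfold rev
  rw [if_neg hy, if_neg (fun h => hx h.1)]

theorem stb_rev_adj {V : Type} (G : SimpleGraph V) (b : V → V → Bool) {z y : V} (hy : y ≠ z)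
    (h : G.Adj y z) : rev G b z y z = !(b y z) := by
  unfold rev
  rw [if_neg hy, if_pos ⟨rfl, h⟩]

theorem stb_rev_nadj {V : Type} (G : SimpleGraph V) (b : V → V → Bool) {z y : V} (hy : y ≠ z)
    (h : ¬ G.Adj y z) : rev G b z y z = b y z := by
  unfold rev
  rw [if_neg hy, if_neg (fun h' => h h'.2)]

theorem stb_ovl {V : Type} {G : SimpleGraph V} {T : Set V} {z : V}
    {l r : V → ℝ} (hM : MOn G T l r) {a c : ℝ} (hac : a < c)
    (hne : ∀ y ∈ T, a ≠ l y ∧ a ≠ r y ∧ c ≠ l y ∧ c ≠ r y)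
    (h1 : ∀ y ∈ T, G.Adj z y → (InP l r y a ↔ ¬ InP l r y c))
    (h2 : ∀ y ∈ T, ¬ G.Adj z y → (InP l r y a ↔ InP l r y c)) (y : V) (hy : y ∈ T) :
    G.Adj z y ↔ ((a < l y ∧ l y < c ∧ c < r y) ∨ (l y < a ∧ a < r y ∧ r y < c)) := by
  obtain ⟨n1, n2, n3, n4⟩ := hne y hy
  have hlt := hM.lt y hy
  unfold InP at h1 h2
  by_cases hzy : G.Adj z y
  · refine ⟨fun _ => ?_, fun _ => hzy⟩
    have h3 := h1 y hy hzy
    by_cases h4 : l y < a ∧ a < r y
    · right
      have h5 := h3.1 h4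
      refine ⟨h4.1, h4.2, ?_⟩
      by_contra h6
      exact h5 ⟨h4.1.trans hac, lt_of_le_of_ne (not_lt.1 h6) n4⟩
    · left
      have h5 : l y < c ∧ c < r y := by
        by_contra h6
        exact h4 (h3.2 h6)
      refine ⟨?_, h5.1, h5.2⟩
      by_contra h6
      exact h4 ⟨lt_of_le_of_ne (not_lt.1 h6) (Ne.symm n1), hac.trans h5.2⟩
  · refine ⟨fun h => absurd h hzy, ?_⟩
    have h5 := h2 y hy hzy
    rintro (⟨g1, g2, g3⟩ | ⟨g1, g2, g3⟩)
    · exact absurd (h5.2 ⟨g2, g3⟩).1 (not_lt.2 g1.le)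
    · exact absurd (h5.1 ⟨g1, g2⟩).2 (not_lt.2 g3.le)

theorem stb_MOn {V : Type} {G : SimpleGraph V} {T : Set V} {z : V}
    {l r : V → ℝ} (hM : MOn G T l r) {a c : ℝ} (hac : a < c)
    (hne : ∀ y ∈ T, a ≠ l y ∧ a ≠ r y ∧ c ≠ l y ∧ c ≠ r y)
    (hov : ∀ y ∈ T, (G.Adj z y ↔ ((a < l y ∧ l y < c ∧ c < r y) ∨ (l y < a ∧ a < r y ∧ r y < c))))
    {l' r' : V → ℝ} (lz : l' z = a) (rz : r' z = c) (lT : ∀ y ∈ T, l' y = l y)
    (rT : ∀ y ∈ T, r' y = r y) : MOn G (insert z T) l' r' := by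
  have hovz : ∀ y ∈ T, (G.Adj z y ↔ Ovl l' r' z y) := by
    intro y hy
    rw [hov y hy]
    unfold Ovl
    rw [lz, rz, lT y hy, rT y hy]
  have sym : ∀ u v : V, Ovl l' r' u v ↔ Ovl l' r' v u := by
    intro u v
    unfold Ovl
    tauto
  constructor
  · rintro v (rfl | hv)
    · rw [lz, rz]; exact hac
    · rw [lT v hv, rT v hv]; exact hM.lt v hv
  · rintro u (rfl | hu) v (rfl | hv) huv
    · rfl
    · rw [lz, lT v hv] at huv
      exact absurd huv (hne v hv).1
    · rw [lz, lT u hu] at huv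
      exact absurd huv.symm (hne u hu).1
    · rw [lT u hu, lT v hv] at huv
      exact hM.injl u hu v hv huv
  · rintro u (rfl | hu) v (rfl | hv) huv
    · rfl
    · rw [rz, rT v hv] at huv
      exact absurd huv (hne v hv).2.2.2
    · rw [rz, rT u hu] at huv
      exact absurd huv.symm (hne u hu).2.2.2
    · rw [rT u hu, rT v hv] at huv
      exact hM.injr u hu v hv huv
  · rintro u (rfl | hu) v (rfl | hv)
    · rw [lz, rz]; exact ne_of_lt hac
    · rw [lz, rT v hv]; exact (hne v hv).2.1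
    · rw [rz, lT u hu]; exact (hne u hu).2.2.1.symm
    · rw [lT u hu, rT v hv]; exact hM.ne u hu v hv
  · rintro u (rfl | hu) v (rfl | hv)
    · refine ⟨fun h => absurd h (SimpleGraph.irrefl G), ?_⟩
      rintro (h | h)
      · exact absurd h.1 (lt_irrefl _)
      · exact absurd h.1 (lt_irrefl _)
    · exact hovz v hv
    · rw [G.adj_comm, hovz u hu, sym]
    · rw [hM.adj u hu v hv]
      unfold Ovl
      rw [lT u hu, lT v hv, rT u hu, rT v hv]

theorem st_STB (hTLB : ST_TLB) (hREV : ST_REV) (hRZB : ST_RZB) (_hGB2 : ST_GB2) : ST_STB := by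
  classical
  intro V _ G b T z l r w hDF hNB hz hpre hp hM hR
  have hzT : ∀ y ∈ T, y ≠ z := fun y hy h => hz (h ▸ hy)
  obtain ⟨t, ht, ht'⟩ := hTLB V G b T z l r w hDF hNB hz hM hR hp
  have hR2 : RB T l r w (rev G b z) := by
    intro y hy x hx hxy
    rw [stb_rev_T G b (hzT y hy) (hzT x hx)]
    exact hR y hy x hx hxy
  obtain ⟨h, hh, hh'⟩ := hTLB V G (rev G b z) T z l r w hDF (hREV V G b z hNB) hz hM hR2 hp
  have key1 : ∀ y ∈ T, G.Adj z y → (InP l r y t ↔ ¬ InP l r y h) := by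
    intro y hy hzy
    rw [ht' y hy, hh' y hy, stb_rev_adj G b (hzT y hy) hzy.symm]
    cases b y z <;> cases w y <;> simp
  have key2 : ∀ y ∈ T, ¬ G.Adj z y → (InP l r y t ↔ InP l r y h) := by
    intro y hy hzy
    rw [ht' y hy, hh' y hy, stb_rev_nadj G b (hzT y hy) (fun h => hzy h.symm)]
  have hth : t ≠ h := by
    rintro rfl
    obtain ⟨p, hpT, hzp⟩ := hp
    have := key1 p hpT hzp
    tauto
  obtain ⟨a, c, hac, hne, h1, h2, w0, hw0⟩ : ∃ a c : ℝ, a < c ∧
      (∀ y ∈ T, a ≠ l y ∧ a ≠ r y ∧ c ≠ l y ∧ c ≠ r y) ∧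
      (∀ y ∈ T, G.Adj z y → (InP l r y a ↔ ¬ InP l r y c)) ∧
      (∀ y ∈ T, ¬ G.Adj z y → (InP l r y a ↔ InP l r y c)) ∧
      ∃ w0 : Bool, (if w0 = true then a else c) = t := by
    rcases lt_or_gt_of_ne hth with h1 | h1
    · exact ⟨t, h, h1, fun y hy => ⟨(ht y hy).1, (ht y hy).2, (hh y hy).1, (hh y hy).2⟩, key1, key2,
        true, by simp⟩
    · refine ⟨h, t, h1, fun y hy => ⟨(hh y hy).1, (hh y hy).2, (ht y hy).1, (ht y hy).2⟩, ?_, ?_,
        false, by simp⟩
      · intro y hy hzy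
        have := key1 y hy hzy
        tauto
      · intro y hy hzy
        exact (key2 y hy hzy).symm
  have hov := stb_ovl hM hac hne h1 h2
  obtain ⟨l', hl'⟩ : ∃ l' : V → ℝ, l' = Function.update l z a := ⟨_, rfl⟩
  obtain ⟨r', hr'⟩ : ∃ r' : V → ℝ, r' = Function.update r z c := ⟨_, rfl⟩
  obtain ⟨w', hw'⟩ : ∃ w' : V → Bool, w' = Function.update w z w0 := ⟨_, rfl⟩
  have lz : l' z = a := by rw [hl', Function.update_self]
  have rz : r' z = c := by rw [hr', Function.update_self]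
  have wz : w' z = w0 := by rw [hw', Function.update_self]
  have lT : ∀ y ∈ T, l' y = l y := fun y hy => by
    rw [hl', Function.update_of_ne (hzT y hy)]
  have rT : ∀ y ∈ T, r' y = r y := fun y hy => by
    rw [hr', Function.update_of_ne (hzT y hy)]
  have wT : ∀ y ∈ T, w' y = w y := fun y hy => by
    rw [hw', Function.update_of_ne (hzT y hy)]
  have hM' := stb_MOn hM hac hne hov lz rz lT rT
  have tz : tl l' r' w' z = t := by
    unfold tl
    rw [lz, rz, wz]
    exact hw0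
  have tT : ∀ x ∈ T, tl l' r' w' x = tl l r w x := by
    intro x hx
    unfold tl
    rw [lT x hx, rT x hx, wT x hx]
  have hall : ∀ y ∈ T, ∀ x ∈ insert z T, x ≠ y → b y x = bm l' r' w' y x := by
    rintro y hy x (rfl | hx) hxy
    · unfold bm
      rw [tz]
      have hI : InP l' r' y t ↔ InP l r y t := by
        unfold InP
        rw [lT y hy, rT y hy]
      have hb := ht' y hy
      rw [wT y hy]
      by_cases hi : InP l r y t
      · rw [if_pos (hI.2 hi)]
        exact hb.1 hi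
      · rw [if_neg (fun h => hi (hI.1 h))]
        have h3 : ¬ b y x = w y := fun h => hi (hb.2 h)
        revert h3
        cases b y x <;> cases w y <;> simp
    · rw [hR y hy x hx hxy]
      unfold bm
      rw [tT x hx, wT y hy]
      have hI : InP l' r' y (tl l r w x) ↔ InP l r y (tl l r w x) := by
        unfold InP
        rw [lT y hy, rT y hy]
      by_cases hi : InP l r y (tl l r w x)
      · rw [if_pos hi, if_pos (hI.2 hi)]
      · rw [if_neg hi, if_neg (fun h => hi (hI.1 h))]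
  refine ⟨l', r', w', hM', ?_⟩
  rintro y (rfl | hy) x hx hxy
  · rcases hx with rfl | hx
    · exact absurd rfl hxy
    · exact hRZB V G b T y l' r' w' hNB hz hpre hp hM' hall x hx
  · exact hall y hy x hx hxy

end Pool.Agent.Helper64.DT
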